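import Pool.Agent.Helper183.Geo.Two

set_option autoImplicit false
open MeasureTheory Set

namespace Pool.Agent.Results.MP_02f2ca_gt.NotBodies

/-- A geometric body of `ℝⁿ`: a bounded, regular open, Jordan measurable set. The boundary of a bounded set is compact,
so it has Jordan measure zero exactly when it has Lebesgue measure zero. -/
def GeometricBody {n : ℕ} (A : Set (EuclideanSpace ℝ (Fin n))) : Prop :=
  Bornology.IsBounded A ∧ interior (closure A) = A ∧ volume (frontier A) = 0

/-- The join of finitely many open sets: the interior of the closure of the union. -/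
def Join {n k : ℕ} (P : Fin k → Set (EuclideanSpace ℝ (Fin n))) : Set (EuclideanSpace ℝ (Fin n)) :=
  interior (closure (⋃ i, P i))

/-- Equidecomposable with arbitrary pieces, using all isometries of `ℝⁿ`. -/
def EquidecArbitrary {n : ℕ} (A B : Set (EuclideanSpace ℝ (Fin n))) : Prop :=
  ∃ (k : ℕ) (P : Fin k → Set (EuclideanSpace ℝ (Fin n)))
    (g : Fin k → EuclideanSpace ℝ (Fin n) ≃ᵢ EuclideanSpace ℝ (Fin n)),
    (∀ i j, i ≠ j → Disjoint (P i) (P j)) ∧ A = ⋃ i, P i ∧
    (∀ i j, i ≠ j → Disjoint (g i '' P i) (g j '' P j)) ∧ B = ⋃ i, g i '' P i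

/-- Equidecomposable as geometric bodies, using all isometries of `ℝⁿ`. -/
def EquidecBodies {n : ℕ} (A B : Set (EuclideanSpace ℝ (Fin n))) : Prop :=
  ∃ (k : ℕ) (P : Fin k → Set (EuclideanSpace ℝ (Fin n)))
    (g : Fin k → EuclideanSpace ℝ (Fin n) ≃ᵢ EuclideanSpace ℝ (Fin n)),
    (∀ i, GeometricBody (P i)) ∧
    (∀ i j, i ≠ j → Disjoint (P i) (P j)) ∧ A = Join P ∧
    (∀ i j, i ≠ j → Disjoint (g i '' P i) (g j '' P j)) ∧ B = Join fun i => g i '' P i

/-- The join of a family is the iterated binary join `A ∨ B = Int Cl (A ∪ B)`. -/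
theorem join_succ {n k : ℕ} (P : Fin (k + 1) → Set (EuclideanSpace ℝ (Fin n))) (h : ∀ i, IsOpen (P i)) :
    Join P = interior (closure (Join (fun i : Fin k => P i.castSucc) ∪ P (Fin.last k))) := by
  have e : (⋃ i, P i) = (⋃ i : Fin k, P i.castSucc) ∪ P (Fin.last k) := by
    ext x
    simp only [mem_iUnion, mem_union]
    constructor
    · rintro ⟨i, hi⟩
      rcases Fin.eq_castSucc_or_eq_last i with ⟨j, rfl⟩ | rfl
      · exact Or.inl ⟨j, hi⟩
      · exact Or.inr hi
    · rintro (⟨j, hj⟩ | h)
      · exact ⟨_, hj⟩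
      · exact ⟨_, h⟩
  have ho : IsOpen (⋃ i : Fin k, P i.castSucc) := isOpen_iUnion fun i => h _
  unfold Join
  rw [e, closure_union, closure_union]
  congr 2
  apply subset_antisymm
  · exact closure_mono (interior_maximal subset_closure ho)
  · exact closure_minimal interior_subset isClosed_closure

/-- For `n = 1` and for `n = 2` there are geometric bodies of `ℝⁿ` that are equidecomposable with arbitrary pieces
but not as geometric bodies. -/
theorem result : ∀ n : ℕ, n = 1 ∨ n = 2 → ∃ A B : Set (EuclideanSpace ℝ (Fin n)),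
    GeometricBody A ∧ GeometricBody B ∧ EquidecArbitrary A B ∧ ¬ EquidecBodies A B := by
  rintro n (rfl | rfl)
  · obtain ⟨A, B, hA, hB, h1, h2⟩ :=
      Geo.transfer_lin (OrthonormalBasis.singleton (Fin 1) ℝ) Geo.line_example
    exact ⟨A, B, hA, hB, h1, h2⟩
  · obtain ⟨A, B, hA, hB, h1, h2⟩ :=
      Geo.transfer_lin Complex.orthonormalBasisOneI Geo.plane_example
    exact ⟨A, B, hA, hB, h1, h2⟩

end Pool.Agent.Results.MP_02f2ca_gt.NotBodies
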